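import Pool.Agent.Results.MP_36bee3_al.LengthThree

/-! The statement of the earlier hand-in `NotRZeroClosed`, word for word, from `LengthThree`. -/

namespace Pool.Agent.Work.MP_36bee3_al

theorem old_statement :
    ∃ X : (G : Type) → [Group G] → Prop,
      (∀ (G : Type) [Group G], X G → Finite G ∧ Group.IsSolvable G) ∧
      (∀ (G H : Type) [Group G] [Group H], Nonempty (G ≃* H) → X G → X H) ∧
      (∀ (G : Type) [Group G], Subsingleton G → X G) ∧
      (∀ (G : Type) [Group G] [Finite G] [Group.IsSolvable G] (n : ℕ) (N : Fin n → Subgroup G),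
        (∀ i, (N i).IsSubnormal ∧ X (N i)) → ⨆ i, N i = ⊤ → X G) ∧
      (∀ (H : Type) [Group H] (G : Subgroup H), X H →
        Group.IsNilpotent (G ⧸ G.normalCore.subgroupOf G) → X G) ∧
      ∃ (G : Type) (_ : Group G) (_ : Finite G) (_ : Group.IsSolvable G) (M₁ M₂ : Subgroup G)
        (_ : M₁.Normal) (_ : M₂.Normal),
        M₁ ⊓ M₂ = ⊥ ∧ X (G ⧸ M₁) ∧ X (G ⧸ M₂) ∧ ¬ X G := by
  obtain ⟨X, h1, h2, h3, h4, h5, -, G, i1, i2, i3, M₁, M₂, i4, i5, h6, h7, h8, h9, -⟩ :=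
    Pool.Agent.Results.MP_36bee3_al.LengthThree.result 2 3 2 Nat.prime_two Nat.prime_three
      Nat.prime_two (by decide) (by decide)
  exact ⟨X, h1, h2, h3, h4, h5, G, i1, i2, i3, M₁, M₂, i4, i5, h6, h7, h8, h9⟩

end Pool.Agent.Work.MP_36bee3_al
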