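import Pool.Agent.Work.MP_36bee3_al.Fischer

-- merged part: Pool.Agent.Work.MP_36bee3_al.Example
section
/-!
The groups of the counterexample, built from wreath-type semidirect products.
-/

namespace Pool.Agent.Work.MP_36bee3_al

open Subgroup SemidirectProduct

/-- The cyclic group of order `c`. -/
abbrev Cy (c : ℕ) : Type := Multiplicative (ZMod c)

/-- Functions `R → C_c` extended by `Q`, which permutes the coordinates through `π`. -/
def Wr (c : ℕ) {Q R : Type} [Group Q] [Group R] (π : Q →* R) : Type :=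
  (R → Cy c) ⋊[(mulAutArrow : R →* MulAut (R → Cy c)).comp π] Q

section Wr

variable {c : ℕ} {Q R : Type} [Group Q] [Group R] {π : Q →* R}

instance Wr.group : Group (Wr c π) :=
  inferInstanceAs (Group ((R → Cy c) ⋊[(mulAutArrow : R →* MulAut (R → Cy c)).comp π] Q))

instance Wr.finite [NeZero c] [Finite Q] [Finite R] : Finite (Wr c π) :=
  Finite.of_equiv _ (SemidirectProduct.equivProd (N := R → Cy c) (G := Q)
    (φ := (mulAutArrow : R →* MulAut (R → Cy c)).comp π)).symm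

/-- The projection onto the acting group. -/
def Wr.pr : Wr c π →* Q := rightHom

/-- The base group. -/
def Wr.base : (R → Cy c) →* Wr c π := inl

/-- The complement to the base group. -/
def Wr.sec : Q →* Wr c π := inr

lemma Wr.pr_base (v : R → Cy c) : Wr.pr (Wr.base v : Wr c π) = 1 := rfl

lemma Wr.pr_sec (q : Q) : Wr.pr (Wr.sec q : Wr c π) = q := rfl

lemma Wr.pr_surjective : Function.Surjective (Wr.pr : Wr c π →* Q) := fun q => ⟨Wr.sec q, rfl⟩

lemma Wr.eq_base {g : Wr c π} (h : Wr.pr g = 1) : ∃ v, Wr.base v = g :=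
  ⟨SemidirectProduct.left g, SemidirectProduct.ext rfl h.symm⟩

instance Wr.solvable [Group.IsSolvable Q] : Group.IsSolvable (Wr c π) :=
  Group.isSolvable_of_ker_le_range (Wr.base : (R → Cy c) →* Wr c π) Wr.pr
    fun _ hg => Wr.eq_base hg

lemma cy_pow (x : Cy c) : x ^ c = 1 := by
  ext
  simp

lemma Wr.pow_eq_one {g : Wr c π} (h : Wr.pr g = 1) : g ^ c = 1 := by
  obtain ⟨v, rfl⟩ := Wr.eq_base h
  rw [← map_pow]
  have : v ^ c = 1 := funext fun r => cy_pow _
  rw [this, map_one]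

lemma Wr.commute_base {g : Wr c π} (h : π (Wr.pr g) = 1) (v : R → Cy c) :
    g * Wr.base v * g⁻¹ * (Wr.base v)⁻¹ = 1 := by
  rw [mul_inv_eq_one, mul_inv_eq_iff_eq_mul]
  refine SemidirectProduct.ext ?_ ?_
  · change SemidirectProduct.left g * mulAutArrow (π (Wr.pr g)) v =
      v * mulAutArrow (π 1) (SemidirectProduct.left g)
    simp [h, mul_comm]
  · change Wr.pr g * 1 = 1 * Wr.pr g
    simp

lemma Wr.eq_one_of_commute [Fact (1 < c)] {g : Wr c π}
    (h : ∀ v : R → Cy c, g * Wr.base v * g⁻¹ * (Wr.base v)⁻¹ = 1) : π (Wr.pr g) = 1 := by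
  classical
  by_contra hne
  have h1 := h (Pi.mulSingle 1 (Multiplicative.ofAdd 1))
  rw [mul_inv_eq_one, mul_inv_eq_iff_eq_mul] at h1
  have h2 : SemidirectProduct.left g 1 *
      (Pi.mulSingle 1 (Multiplicative.ofAdd 1) : R → Cy c) ((π (Wr.pr g))⁻¹ * 1) =
      (Pi.mulSingle 1 (Multiplicative.ofAdd 1) : R → Cy c) 1 *
        SemidirectProduct.left g ((π 1)⁻¹ * 1) :=
    congrFun (congrArg SemidirectProduct.left h1) 1
  rw [Pi.mulSingle_eq_of_ne (by simpa using hne), Pi.mulSingle_eq_same] at h2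
  simp at h2

/-- The map induced by a homomorphism of acting groups. -/
def Wr.map {Q' : Type} [Group Q'] (f : Q' →* Q) : Wr c (π.comp f) →* Wr c π :=
  SemidirectProduct.map (MonoidHom.id _) f fun _ => rfl

lemma Wr.map_surjective {Q' : Type} [Group Q'] (f : Q' →* Q) (hf : Function.Surjective f) :
    Function.Surjective (Wr.map f : Wr c (π.comp f) →* Wr c π) := by
  intro g
  obtain ⟨q, hq⟩ := hf (Wr.pr g)
  exact ⟨⟨SemidirectProduct.left g, q⟩, SemidirectProduct.ext rfl hq⟩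

lemma Wr.ker_inf_ker {Q' : Type} [Group Q'] (f : Q' →* Q) :
    (Wr.map f : Wr c (π.comp f) →* Wr c π).ker ⊓ (Wr.pr : Wr c (π.comp f) →* Q').ker = ⊥ := by
  rw [eq_bot_iff]
  rintro g ⟨h1, h2⟩
  have h3 : SemidirectProduct.left g = 1 :=
    congrArg SemidirectProduct.left (MonoidHom.mem_ker.mp h1)
  exact mem_bot.mpr (SemidirectProduct.ext h3 (MonoidHom.mem_ker.mp h2))

lemma eq_one_of_coprime {G : Type*} [Group G] {g : G} {a b : ℕ} (hab : a.Coprime b)
    (ha : g ^ a = 1) (hb : g ^ b = 1) : g = 1 :=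
  mem_bot.mp (mem_of_coprime hab (mem_bot.mpr ha) (mem_bot.mpr hb))

/-- No element of order a power of five other than the identity. -/
def NoFive (G : Type) [Group G] : Prop := ∀ (g : G) (k : ℕ), g ^ 5 ^ k = 1 → g = 1

lemma Wr.noFive (hc : Nat.Coprime 5 c) (h : NoFive Q) : NoFive (Wr c π) := by
  intro g k hg
  have h1 : Wr.pr g = 1 := h _ k (by rw [← map_pow, hg, map_one])
  exact eq_one_of_coprime (Nat.Coprime.pow_left k hc) hg (Wr.pow_eq_one h1)

/-- A regular wreath product with base a `2`-group has no normal subgroup of odd order. -/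
lemma Wr.eq_bot_of_odd (M : Subgroup (Wr 2 (MonoidHom.id Q))) (hM : M.Normal)
    (h : Pw odds ⊥ M) : M = ⊥ := by
  have : Fact (1 < 2) := ⟨by decide⟩
  have h0 : ∀ m ∈ M, Wr.pr m = 1 → m = 1 := by
    intro m hm h1
    obtain ⟨n, hn, h2⟩ := h m hm
    exact eq_one_of_coprime (Odd.coprime_two_right hn) (mem_bot.mp h2) (Wr.pow_eq_one h1)
  rw [eq_bot_iff]
  intro m hm
  refine mem_bot.mpr (h0 m hm (Wr.eq_one_of_commute (π := MonoidHom.id Q) fun v => ?_))
  refine h0 _ ?_ (by simp [Wr.pr_base])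
  have : m * Wr.base v * m⁻¹ * (Wr.base v)⁻¹ = m * (Wr.base v * m⁻¹ * (Wr.base v)⁻¹) := by group
  rw [this]
  exact M.mul_mem hm (hM.conj_mem _ (M.inv_mem hm) _)

end Wr

/-- `C_3 ≀ C_2`. -/
abbrev Sb : Type := Wr 3 (MonoidHom.id (Cy 2))

/-- `C_2 ≀ Sb`. -/
abbrev Sa : Type := Wr 2 (MonoidHom.id Sb)

/-- `C_5 ≀ Sa`. -/
abbrev Pa : Type := Wr 5 (MonoidHom.id Sa)

/-- `C_2 ≀ Pa`. -/
abbrev Gb : Type := Wr 2 (MonoidHom.id Pa)

/-- The projection `Pa → Sa → Sb`. -/
def piA : Pa →* Sb := (Wr.pr : Sa →* Sb).comp (Wr.pr : Pa →* Sa)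

/-- The projection `Gb → Pa → Sb`. -/
abbrev piB : Gb →* Sb := piA.comp (Wr.pr : Gb →* Pa)

/-- The first quotient. -/
abbrev Ga : Type := Wr 5 piA

/-- The subdirect product. -/
abbrev Gc : Type := Wr 5 piB

lemma noFive_Sb : NoFive Sb :=
  Wr.noFive (by decide) fun g k hg =>
    eq_one_of_coprime (Nat.Coprime.pow_left k (by decide : Nat.Coprime 5 2)) hg (cy_pow g)

lemma noFive_Sa : NoFive Sa := Wr.noFive (by decide) noFive_Sb

lemma sW_top_of_le {G : Type*} [Group G] (h : sE G ≤ sD G) : sW G = ⊤ := by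
  rw [eq_top_iff]
  refine le_trans ?_ (self_le_rel odds (sT G))
  intro g _
  exact mem_cen.mpr fun e he =>
    (sD G).mul_mem (Normal.conj_mem inferInstance e (h he) g) (inv_mem (h he))

lemma sW_Gb : sW Gb = ⊤ := by
  have h1 : sU Gb = ⊥ := Wr.eq_bot_of_odd _ inferInstance ((pw_rel _ _).mono powers_five_le)
  refine sW_top_of_le fun e _ => self_le_rel _ (sC Gb) (mem_cen.mpr fun u hu => ?_)
  rw [h1, mem_bot] at hu
  simp [hu]

lemma sW_Ga : sW Ga = ⊤ := by
  have : Fact (1 < 5) := ⟨by decide⟩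
  let φ : Ga →* Sa := (Wr.pr : Pa →* Sa).comp (Wr.pr : Ga →* Pa)
  have hφ : Function.Surjective φ := Wr.pr_surjective.comp Wr.pr_surjective
  have h1 : ∀ g ∈ φ.ker, g ^ 5 ^ 2 = 1 := by
    intro g hg
    have h2 : Wr.pr (g ^ 5) = 1 := by
      rw [map_pow]
      exact Wr.pow_eq_one (MonoidHom.mem_ker.mp hg)
    rw [pow_two, pow_mul]
    exact Wr.pow_eq_one h2
  have h2 : φ.ker ≤ sU Ga :=
    le_rel inferInstance fun g hg => ⟨_, ⟨2, rfl⟩, mem_bot.mpr (h1 g hg)⟩
  have h3 : φ.ker ≤ sD Ga :=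
    le_rel inferInstance fun g hg => ⟨_, ⟨2, rfl⟩, by
      change g ^ 5 ^ 2 ∈ sC Ga
      rw [h1 g hg]
      exact one_mem _⟩
  have h4 : sC Ga ≤ φ.ker := by
    intro g hg
    refine MonoidHom.mem_ker.mpr
      (Wr.eq_one_of_commute (π := MonoidHom.id Sa) (g := Wr.pr g) fun v => ?_)
    have h5 := mem_bot.mp (mem_cen.mp hg (Wr.sec (Wr.base v)) (h2 (MonoidHom.mem_ker.mpr (by
      rw [MonoidHom.comp_apply, Wr.pr_sec, Wr.pr_base]))))
    have h6 := congrArg Wr.pr h5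
    simpa only [map_mul, map_inv, map_one, Wr.pr_sec] using h6
  have h5 : sD Ga ≤ φ.ker := by
    intro g hg
    obtain ⟨_, ⟨k, rfl⟩, h6⟩ := pw_rel _ _ g hg
    exact MonoidHom.mem_ker.mpr (noFive_Sa _ k (by
      rw [← map_pow]
      exact MonoidHom.mem_ker.mp (h4 h6)))
  have h6 : (sE Ga).map φ = ⊥ := by
    refine Wr.eq_bot_of_odd _ (Normal.map inferInstance _ hφ) ?_
    rintro _ ⟨e, he, rfl⟩
    obtain ⟨n, hn, h7⟩ := pw_rel _ _ e he
    refine ⟨n, powers_three_le hn, mem_bot.mpr ?_⟩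
    rw [← map_pow]
    exact MonoidHom.mem_ker.mp (h5 h7)
  exact sW_top_of_le (((Subgroup.map_eq_bot_iff _).mp h6).trans h3)

lemma sW_Gc : sW Gc ≠ ⊤ := by
  have : Fact (1 < 5) := ⟨by decide⟩
  have : Fact (1 < 3) := ⟨by decide⟩
  intro htop
  let ψ : Gc →* Sb := piB.comp (Wr.pr : Gc →* Gb)
  have hψ : Function.Surjective ψ :=
    ((Wr.pr_surjective.comp Wr.pr_surjective).comp Wr.pr_surjective).comp
      Wr.pr_surjective
  have h1 : (sU Gc).map (Wr.pr : Gc →* Gb) = ⊥ := by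
    refine Wr.eq_bot_of_odd _ (Normal.map inferInstance _ Wr.pr_surjective) ?_
    rintro _ ⟨e, he, rfl⟩
    obtain ⟨n, hn, h7⟩ := pw_rel _ _ e he
    refine ⟨n, powers_five_le hn, mem_bot.mpr ?_⟩
    rw [← map_pow, mem_bot.mp h7, map_one]
  have h2 : ψ.ker ≤ sC Gc := by
    intro g hg
    refine mem_cen.mpr fun u hu => mem_bot.mpr ?_
    obtain ⟨v, rfl⟩ :=
      Wr.eq_base (MonoidHom.mem_ker.mp ((Subgroup.map_eq_bot_iff _).mp h1 hu))
    exact Wr.commute_base (MonoidHom.mem_ker.mp hg) _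
  have h3 : (Wr.pr : Gc →* Gb).ker ≤ sU Gc :=
    le_rel inferInstance fun g hg => ⟨5, Submonoid.mem_powers 5,
      mem_bot.mpr (Wr.pow_eq_one (MonoidHom.mem_ker.mp hg))⟩
  have h4 : sC Gc ≤ ψ.ker := by
    intro g hg
    refine MonoidHom.mem_ker.mpr (Wr.eq_one_of_commute (π := piB) (g := g) fun v => ?_)
    exact mem_bot.mp (mem_cen.mp hg (Wr.base v) (h3 (MonoidHom.mem_ker.mpr (Wr.pr_base v))))
  have h5 : sD Gc ≤ ψ.ker := by
    intro g hg
    obtain ⟨_, ⟨k, rfl⟩, h6⟩ := pw_rel _ _ g hg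
    exact MonoidHom.mem_ker.mpr (noFive_Sb _ k (by
      rw [← map_pow]
      exact MonoidHom.mem_ker.mp (h4 h6)))
  have h6 : ((Wr.pr : Sb →* Cy 2).comp ψ).ker ≤ sE Gc :=
    le_rel inferInstance fun g hg => ⟨3, Submonoid.mem_powers 3,
      self_le_rel _ _ (h2 (MonoidHom.mem_ker.mpr (by
        rw [map_pow]
        exact Wr.pow_eq_one (MonoidHom.mem_ker.mp hg))))⟩
  obtain ⟨g, hg⟩ := hψ (Wr.sec (Multiplicative.ofAdd 1))
  obtain ⟨n, hn, h7⟩ := pw_rel odds (sT Gc) g (by change g ∈ sW Gc; rw [htop]; trivial)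
  have h8 : (MonoidHom.id (Cy 2)) (Wr.pr (ψ (g ^ n))) = 1 := by
    refine Wr.eq_one_of_commute fun v => ?_
    obtain ⟨e, he⟩ := hψ (Wr.base v)
    have h9 := MonoidHom.mem_ker.mp (h5 (mem_cen.mp h7 e (h6 (by
      rw [MonoidHom.mem_ker, MonoidHom.comp_apply, he, Wr.pr_base]))))
    rw [← he]
    simpa only [map_mul, map_inv] using h9
  rw [MonoidHom.id_apply, map_pow, hg, map_pow, Wr.pr_sec] at h8
  have h9 : (Multiplicative.ofAdd 1 : Cy 2) = 1 :=
    eq_one_of_coprime (Odd.coprime_two_right hn) h8 (by decide)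
  exact absurd h9 (by decide)

end Pool.Agent.Work.MP_36bee3_al
end

-- merged part: Pool.Agent.Work.MP_36bee3_al.Hedge.Rad
section
/-!
Radicals of Fitting classes, in the abstract, and the Fischer classes they define.
-/

namespace Pool.Agent.Work.MP_36bee3_al

open Subgroup

/-- A normal subgroup of each group, compatible with normal embeddings. -/
structure Rad where
  s : (G : Type) → [Group G] → Subgroup G
  normal : ∀ (G : Type) [Group G], (s G).Normal
  comap : ∀ {N G : Type} [Group N] [Group G] [Finite G] (f : N →* G), Function.Injective f →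
    f.range.Normal → s N = (s G).comap f

attribute [instance] Rad.normal

/-- The natural numbers prime to `t`. -/
def cop (t : ℕ) : Submonoid ℕ where
  carrier := {n | n.Coprime t}
  mul_mem' := fun ha hb => Nat.Coprime.mul_left ha hb
  one_mem' := Nat.coprime_one_left t

lemma powers_le_cop {s t : ℕ} (h : s.Coprime t) : Submonoid.powers s ≤ cop t := by
  rintro _ ⟨k, rfl⟩
  exact Nat.Coprime.pow_left k h

namespace Rad

/-- The trivial subgroup. -/
def bot : Rad where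
  s _ _ := ⊥
  normal _ _ := inferInstance
  comap f hf _ := by
    rw [MonoidHom.comap_bot, eq_comm, MonoidHom.ker_eq_bot_iff]
    exact hf

/-- The intersection. -/
def inf (A B : Rad) : Rad where
  s G _ := A.s G ⊓ B.s G
  normal _ _ := inferInstance
  comap f hf hn := by rw [comap_inf, A.comap f hf hn, B.comap f hf hn]

/-- The largest normal subgroup with powers in `D`. -/
def up (S : Submonoid ℕ) (D : Rad) : Rad where
  s G _ := rel S (D.s G)
  normal _ _ := inferInstance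
  comap f hf hn :=
    rel_eq_comap _ f hf hn _ _ (Pw.of_le (D.comap f hf hn).ge) (Pw.of_le (D.comap f hf hn).le)

/-- The largest normal subgroup with powers in the centraliser of `E / D`. -/
def ce (S : Submonoid ℕ) (D E : Rad) (h : ∀ (G : Type) [Group G], Pw S (D.s G) (E.s G)) : Rad where
  s G _ := rel S (cen (D.s G) (E.s G))
  normal _ _ := inferInstance
  comap := by
    intro N G _ _ _ f hf hn
    have h1 : cen (D.s N) (E.s N) = cen ((D.s G).comap f) ((E.s G).comap f) :=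
      cen_congr (D.comap f hf hn) (E.comap f hf hn)
    refine rel_eq_comap _ f hf hn _ _ ?_ ?_
    · rw [h1]
      exact Pw.of_le (comap_cen_le f _ _)
    · rw [h1]
      exact pw_cen f hn _ _ (h G)

variable (W : Rad) {G N : Type} [Group G] [Group N] [Finite G]

lemma top_of_equiv (e : N ≃* G) (h : W.s G = ⊤) : W.s N = ⊤ := by
  have hr : e.toMonoidHom.range = ⊤ := MonoidHom.range_eq_top.mpr e.surjective
  rw [W.comap e.toMonoidHom e.injective (by rw [hr]; infer_instance), h, comap_top]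

lemma map_le {H : Subgroup G} (hH : H.IsSubnormal) : (W.s H).map H.subtype ≤ W.s G := by
  induction hH with
  | top =>
    rw [W.comap (⊤ : Subgroup G).subtype (subtype_injective _)
      (by rw [range_subtype]; infer_instance)]
    exact map_comap_le _ _
  | step H K hle _ hN ih =>
    have h1 : W.s H = (W.s K).comap (inclusion hle) :=
      W.comap _ (inclusion_injective hle) (by rwa [inclusion_range])
    rintro _ ⟨x, hx, rfl⟩
    rw [h1] at hx
    exact ih ⟨inclusion hle x, hx, rfl⟩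

lemma top_of_subnormal {ι : Type*} (H : ι → Subgroup G)
    (h₁ : ∀ i, (H i).IsSubnormal) (h₂ : ∀ i, W.s (H i) = ⊤) (h₃ : ⨆ i, H i = ⊤) : W.s G = ⊤ := by
  rw [eq_top_iff, ← h₃, iSup_le_iff]
  intro i x hx
  exact W.map_le (h₁ i) ⟨⟨x, hx⟩, by rw [h₂ i]; trivial, rfl⟩

end Rad

/-- In a nilpotent group elements of coprime orders commute. -/
lemma commute_of_coprime {Q : Type} [Group Q] [Group.IsNilpotent Q] {a b : ℕ}
    (hab : a.Coprime b) : ∀ x y : Q, x ^ a = 1 → y ^ b = 1 → Commute x y := by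
  refine Group.nilpotent_center_quotient_ind
    (P := fun Q _ _ => ∀ x y : Q, x ^ a = 1 → y ^ b = 1 → Commute x y) Q ?_ ?_
  · intro G _ _ x y _ _
    exact Subsingleton.elim _ _
  · intro G _ _ ih x y hx hy
    have h1 := ih x y (by rw [← QuotientGroup.mk_pow, hx, QuotientGroup.mk_one])
      (by rw [← QuotientGroup.mk_pow, hy, QuotientGroup.mk_one])
    have h2 : x * y * x⁻¹ * y⁻¹ ∈ center G := by
      rw [← QuotientGroup.eq_one_iff]
      simp only [QuotientGroup.mk_mul, QuotientGroup.mk_inv, h1.eq]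
      group
    have h3 := conj_pow_eq x y (mem_center_iff.1 h2 x) a
    have h4 := conj_pow_eq y x (by
      rw [show y * x * y⁻¹ * x⁻¹ = (x * y * x⁻¹ * y⁻¹)⁻¹ by group]
      exact mem_center_iff.1 (inv_mem h2) y) b
    rw [hx] at h3
    rw [hy, show y * x * y⁻¹ * x⁻¹ = (x * y * x⁻¹ * y⁻¹)⁻¹ by group, inv_pow] at h4
    have h5 : x * y * x⁻¹ * y⁻¹ = 1 := eq_one_of_coprime hab (by simpa using h3.symm)
      (by simpa using h4.symm)
    rw [mul_inv_eq_one, mul_inv_eq_iff_eq_mul] at h5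
    exact h5

/-- The elements that commute with `x` modulo `D`. -/
def cm {G : Type} [Group G] (D : Subgroup G) [D.Normal] (x : G) : Subgroup G :=
  (centralizer {(x : G ⧸ D)}).comap (QuotientGroup.mk' D)

lemma mem_cm {G : Type} [Group G] {D : Subgroup G} [D.Normal] {x y : G} :
    y ∈ cm D x ↔ x * y * x⁻¹ * y⁻¹ ∈ D := by
  rw [← QuotientGroup.eq_one_iff (N := D)]
  simp only [cm, mem_comap, mem_centralizer_iff, Set.mem_singleton_iff, forall_eq,
    QuotientGroup.mk'_apply, QuotientGroup.mk_mul, QuotientGroup.mk_inv]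
  rw [mul_inv_eq_one, mul_inv_eq_iff_eq_mul]

/-- The closure property of Fischer classes. -/
lemma top_of_fischer {t : ℕ} (ht : t.Prime) (D E : Rad)
    (hP : ∀ (G : Type) [Group G], Pw (Submonoid.powers t) (D.s G) (E.s G))
    {G : Type} [Group G] [Finite G] (h : (Rad.ce _ D E hP).s G = ⊤) (L : Subgroup G)
    (hL : Group.IsNilpotent (L ⧸ L.normalCore.subgroupOf L)) : (Rad.ce _ D E hP).s L = ⊤ := by
  rw [eq_top_iff]
  refine le_rel inferInstance fun g _ => ?_
  obtain ⟨m, k, hm, hx⟩ := exists_pow_primePow t ht g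
  refine ⟨t ^ k, ⟨k, rfl⟩, ?_⟩
  rw [← pow_mul, mul_comm, pow_mul] at hx
  set x := g ^ t ^ k with hxdef
  have hxT : (x : G) ∈ cen (D.s G) (E.s G) := by
    obtain ⟨_, ⟨j, rfl⟩, hxn⟩ := pw_rel (Submonoid.powers t) (cen (D.s G) (E.s G)) x
      (by change (x : G) ∈ (Rad.ce _ D E hP).s G; rw [h]; trivial)
    exact mem_of_coprime (Nat.Coprime.pow_left j hm) hxn
      (by rw [← coe_pow, hx, coe_one]; exact one_mem _)
  set K := L.normalCore with hK
  have hle : K ≤ L := normalCore_le L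
  have hr1 : K.subtype.range.Normal := by rw [range_subtype]; infer_instance
  have hr2 : (inclusion hle).range.Normal := by rw [inclusion_range]; infer_instance
  have hD1 := D.comap K.subtype (subtype_injective _) hr1
  have hD2 := D.comap (inclusion hle) (inclusion_injective hle) hr2
  have hE1 := E.comap K.subtype (subtype_injective _) hr1
  have hE2 := E.comap (inclusion hle) (inclusion_injective hle) hr2
  have key : ∀ e ∈ E.s L, ∀ l : ℕ, e ^ t ^ l = 1 → x * e * x⁻¹ * e⁻¹ ∈ D.s L := by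
    intro e he l hl
    set c := x * e * x⁻¹ * e⁻¹ with hc
    have hcE : c ∈ E.s L := (E.s L).mul_mem (Normal.conj_mem inferInstance e he x) (inv_mem he)
    have hcK : c ∈ K.subgroupOf L := by
      rw [← QuotientGroup.eq_one_iff]
      have := commute_of_coprime (Nat.Coprime.pow_left l hm).symm (x : L ⧸ K.subgroupOf L)
        (e : L ⧸ K.subgroupOf L)
        (by rw [← QuotientGroup.mk_pow, hx, QuotientGroup.mk_one])
        (by rw [← QuotientGroup.mk_pow, hl, QuotientGroup.mk_one])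
      simp only [hc, QuotientGroup.mk_mul, QuotientGroup.mk_inv, this.eq]
      group
    have hc2 : (c : G) ∈ E.s G := by
      have h1 : (⟨c, hcK⟩ : K) ∈ E.s K := by
        rw [hE2]
        exact hcE
      rw [hE1] at h1
      exact h1
    have hd1 : (x : G) * c * (x : G)⁻¹ * (c : G)⁻¹ ∈ D.s G := mem_cen.mp hxT _ hc2
    have hd2 : x * c * x⁻¹ * c⁻¹ ∈ K.subgroupOf L :=
      (K.subgroupOf L).mul_mem (Normal.conj_mem inferInstance c hcK x) (inv_mem hcK)
    have hd3 : x * c * x⁻¹ * c⁻¹ ∈ D.s L := by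
      have h1 : (⟨(x * c * x⁻¹ * c⁻¹ : L), hd2⟩ : K) ∈ D.s K := by
        rw [hD1]
        exact hd1
      rw [hD2] at h1
      exact h1
    have hp1 : c ^ m ∈ D.s L := by
      rw [hc, ← conj_pow_mem x e m hd3, hx]
      simp
    obtain ⟨_, ⟨j, rfl⟩, hp2⟩ := hP L c hcE
    exact mem_of_coprime (Nat.Coprime.pow_left j hm) hp2 hp1
  rw [mem_cen]
  intro e he
  obtain ⟨m', l, hm', he'⟩ := exists_pow_primePow t ht e
  obtain ⟨_, ⟨j, rfl⟩, hp2⟩ := hP L e he
  rw [← mem_cm]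
  refine mem_of_coprime (a := t ^ j) (b := m') (Nat.Coprime.pow_left j hm') ?_ ?_
  · rw [mem_cm]
    exact (D.s L).mul_mem (Normal.conj_mem inferInstance _ hp2 x) (inv_mem hp2)
  · rw [mem_cm]
    exact key _ (pow_mem he _) l he'

/-- If `E ≤ D` the group is in the class. -/
lemma ce_top_of_le {S : Submonoid ℕ} {D E : Rad} {hP : ∀ (G : Type) [Group G], Pw S (D.s G) (E.s G)}
    {G : Type} [Group G] (h : E.s G ≤ D.s G) : (Rad.ce S D E hP).s G = ⊤ := by
  rw [eq_top_iff]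
  refine le_trans ?_ (self_le_rel S (cen (D.s G) (E.s G)))
  intro g _
  exact mem_cen.mpr fun e he =>
    (D.s G).mul_mem (Normal.conj_mem inferInstance e (h he) g) (inv_mem (h he))

/-- A regular wreath product has no normal subgroup of order prime to the base. -/
lemma Wr.eq_bot_of_cop {c : ℕ} [Fact (1 < c)] {Q : Type} [Group Q]
    (M : Subgroup (Wr c (MonoidHom.id Q))) (hM : M.Normal) (h : Pw (cop c) ⊥ M) : M = ⊥ := by
  have h0 : ∀ m ∈ M, Wr.pr m = 1 → m = 1 := by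
    intro m hm h1
    obtain ⟨n, hn, h2⟩ := h m hm
    exact eq_one_of_coprime hn (mem_bot.mp h2) (Wr.pow_eq_one h1)
  rw [eq_bot_iff]
  intro m hm
  refine mem_bot.mpr (h0 m hm (Wr.eq_one_of_commute (π := MonoidHom.id Q) fun v => ?_))
  refine h0 _ ?_ (by simp [Wr.pr_base])
  have : m * Wr.base v * m⁻¹ * (Wr.base v)⁻¹ = m * (Wr.base v * m⁻¹ * (Wr.base v)⁻¹) := by group
  rw [this]
  exact M.mul_mem hm (hM.conj_mem _ (M.inv_mem hm) _)

end Pool.Agent.Work.MP_36bee3_al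
end

-- merged part: Pool.Agent.Work.MP_36bee3_al.Hedge.Pos
section
/-!
Fischer classes are closed under fibre products over metanilpotent groups.
-/

namespace Pool.Agent.Work.MP_36bee3_al

open Subgroup

/-- Fischer classes of finite soluble groups. -/
structure Fis (X : (G : Type) → [Group G] → Prop) : Prop where
  fin : ∀ (G : Type) [Group G], X G → Finite G ∧ Group.IsSolvable G
  iso : ∀ (G H : Type) [Group G] [Group H], Nonempty (G ≃* H) → X G → X H
  triv : ∀ (G : Type) [Group G], Subsingleton G → X G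
  nz : ∀ (G : Type) [Group G] [Finite G] [Group.IsSolvable G] (n : ℕ) (N : Fin n → Subgroup G),
    (∀ i, (N i).IsSubnormal ∧ X (N i)) → ⨆ i, N i = ⊤ → X G
  fc : ∀ (H : Type) [Group H] (G : Subgroup H), X H →
    Group.IsNilpotent (G ⧸ G.normalCore.subgroupOf G) → X G

lemma nilpotent_quot {G P : Type} [Group G] [Group P] [Group.IsNilpotent P] (ψ : G →* P)
    (N : Subgroup G) [N.Normal] (h : ψ.ker ≤ N) : Group.IsNilpotent (G ⧸ N) := by
  have h1 : Group.IsNilpotent (G ⧸ ψ.ker) :=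
    Group.nilpotent_of_mulEquiv (QuotientGroup.quotientKerEquivRange ψ).symm
  refine Group.nilpotent_of_surjective (QuotientGroup.map ψ.ker N (MonoidHom.id G) h) fun y => ?_
  obtain ⟨x, rfl⟩ := QuotientGroup.mk_surjective y
  exact ⟨x, rfl⟩

variable {X : (G : Type) → [Group G] → Prop} (hX : Fis X)
include hX

lemma Fis.prod {A B : Type} [Group A] [Group B] (hA : X A) (hB : X B) : X (A × B) := by
  obtain ⟨_, _⟩ := hX.fin A hA
  obtain ⟨_, _⟩ := hX.fin B hB
  refine hX.nz (A × B) 2 ![(MonoidHom.snd A B).ker, (MonoidHom.fst A B).ker] (fun i => ?_) ?_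
  · fin_cases i
    · refine ⟨(MonoidHom.normal_ker _).isSubnormal, hX.iso A _ ⟨?_⟩ hA⟩
      exact (MonoidHom.ofInjective (f := MonoidHom.inl A B) fun _ _ h => congrArg Prod.fst h).trans
        (MulEquiv.subgroupCongr (by ext ⟨a, b⟩; simp [eq_comm, mem_prod]))
    · refine ⟨(MonoidHom.normal_ker _).isSubnormal, hX.iso B _ ⟨?_⟩ hB⟩
      exact (MonoidHom.ofInjective (f := MonoidHom.inr A B) fun _ _ h => congrArg Prod.snd h).trans
        (MulEquiv.subgroupCongr (by ext ⟨a, b⟩; simp [eq_comm, mem_prod]))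
  · rw [eq_top_iff]
    rintro ⟨a, b⟩ -
    rw [show ((a, b) : A × B) = (a, 1) * (1, b) by simp]
    exact mul_mem (mem_iSup_of_mem 0 (show _ = _ from rfl)) (mem_iSup_of_mem 1 (show _ = _ from rfl))

variable {H Q : Type} [Group H] [Group Q] (f₁ f₂ : H →* Q)

/-- The elements on which two maps agree modulo `Γ`. -/
def agr (Γ : Subgroup Q) [Γ.Normal] : Subgroup H :=
  ((QuotientGroup.mk' Γ).comp f₁).eqLocus ((QuotientGroup.mk' Γ).comp f₂)

omit hX in
lemma mem_agr {Γ : Subgroup Q} [Γ.Normal] {h : H} : h ∈ agr f₁ f₂ Γ ↔ f₁ h / f₂ h ∈ Γ :=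
  QuotientGroup.eq_iff_div_mem

lemma Fis.step {K Γ Γ' : Subgroup Q} [K.Normal] [Γ.Normal] [Γ'.Normal]
    [Group.IsNilpotent (Q ⧸ K)] (h1 : Γ' ≤ Γ) (h2 : ⁅Γ, K⁆ ≤ Γ') (h : X (agr f₁ f₂ Γ)) :
    X (agr f₁ f₂ Γ') := by
  have hle : agr f₁ f₂ Γ' ≤ agr f₁ f₂ Γ := fun x hx => (mem_agr _ _).2 (h1 ((mem_agr _ _).1 hx))
  refine hX.iso _ _ ⟨subgroupOfEquivOfLe hle⟩ (hX.fc _ _ h ?_)
  refine nilpotent_quot ((QuotientGroup.mk' K).comp (f₁.comp
    ((agr f₁ f₂ Γ).subtype.comp (Subgroup.subtype _)))) _ fun x hx g => ?_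
  have hk : f₁ x ∈ K := (QuotientGroup.eq_one_iff _).1 hx
  have hx' : f₁ x / f₂ x ∈ Γ' := (mem_agr _ _).1 x.2
  have hg : f₁ g / f₂ g ∈ Γ := (mem_agr _ _).1 g.2
  refine (mem_agr f₁ f₂).2 ?_
  have h3 := h2 (commutator_mem_commutator hg (Normal.conj_mem inferInstance _ hk (f₂ g)))
  have h4 := mul_mem h3 (Normal.conj_mem inferInstance _ hx' (f₂ g))
  simp only [map_mul, map_inv, coe_subtype]
  rw [commutatorElement_def] at h4
  simp only [div_eq_mul_inv] at h4 ⊢
  exact Eq.mp (congrArg (· ∈ Γ') (by group)) h4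

lemma Fis.fibre (h : X H) {K : Subgroup Q} [K.Normal] (hK : Group.IsNilpotent K)
    (hQ : Group.IsNilpotent (Q ⧸ K)) : X (agr f₁ f₂ ⊥) := by
  have h0 : X (agr f₁ f₂ ⊤) := hX.iso _ _ ⟨(topEquiv.symm.trans (MulEquiv.subgroupCongr
    (by ext x; simp [mem_agr])))⟩ h
  have h1 : ∀ n, X (agr f₁ f₂ (K.lowerCentralSeries n)) := by
    intro n
    induction n with
    | zero => exact hX.step f₁ f₂ (K := K) le_top (commutator_le_right _ _) h0
    | succ n ih =>
      exact hX.step f₁ f₂ (K := K) (K.lowerCentralSeries_antitone (Nat.le_succ n)) le_rfl ih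
  obtain ⟨n, hn⟩ := (isNilpotent_iff_lowerCentralSeries K).1 hK
  refine hX.iso _ _ ⟨MulEquiv.subgroupCongr ?_⟩ (h1 n)
  ext x
  rw [mem_agr, mem_agr, hn]

/-- Subdirect products over a metanilpotent group. -/
lemma Fis.subdirect {G : Type} [Group G] (M₁ M₂ : Subgroup G) [M₁.Normal] [M₂.Normal]
    (hM : M₁ ⊓ M₂ = ⊥) (e : G ⧸ (M₁ ⊔ M₂) ≃* Q) (h₁ : X (G ⧸ M₁)) (h₂ : X (G ⧸ M₂))
    {K : Subgroup Q} [K.Normal] (hK : Group.IsNilpotent K) (hQ : Group.IsNilpotent (Q ⧸ K)) :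
    X G := by
  let p₁ : G ⧸ M₁ →* G ⧸ (M₁ ⊔ M₂) := QuotientGroup.map _ _ (MonoidHom.id G) le_sup_left
  let p₂ : G ⧸ M₂ →* G ⧸ (M₁ ⊔ M₂) := QuotientGroup.map _ _ (MonoidHom.id G) le_sup_right
  have h := hX.fibre (e.toMonoidHom.comp (p₁.comp (MonoidHom.fst _ _)))
    (e.toMonoidHom.comp (p₂.comp (MonoidHom.snd _ _))) (hX.prod h₁ h₂) hK hQ
  let φ : G →* (G ⧸ M₁) × (G ⧸ M₂) := (QuotientGroup.mk' M₁).prod (QuotientGroup.mk' M₂)
  have hφ : Function.Injective φ := by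
    rw [← MonoidHom.ker_eq_bot_iff, MonoidHom.ker_prod, QuotientGroup.ker_mk',
      QuotientGroup.ker_mk', hM]
  refine hX.iso _ _ ⟨(MulEquiv.subgroupCongr ?_).trans (MonoidHom.ofInjective hφ).symm⟩ h
  ext ⟨a, b⟩
  obtain ⟨x, rfl⟩ := QuotientGroup.mk_surjective a
  obtain ⟨y, rfl⟩ := QuotientGroup.mk_surjective b
  rw [mem_agr, mem_bot, div_eq_one]
  change e (x : G ⧸ (M₁ ⊔ M₂)) = e (y : G ⧸ (M₁ ⊔ M₂)) ↔ _
  rw [e.apply_eq_iff_eq, QuotientGroup.eq]
  constructor
  · intro h3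
    obtain ⟨m, hm, n, hn, h4⟩ := mem_sup_of_normal_right.1 h3
    refine ⟨x * m, Prod.ext (QuotientGroup.mk_mul_of_mem x hm) ?_⟩
    exact QuotientGroup.eq.2 (by rw [mul_inv_rev, mul_assoc, ← h4]; simpa using hn)
  · rintro ⟨z, hz⟩
    have h3 : x⁻¹ * z ∈ M₁ := QuotientGroup.eq.1 (congrArg Prod.fst hz).symm
    have h4 : z⁻¹ * y ∈ M₂ := QuotientGroup.eq.1 (congrArg Prod.snd hz)
    simpa [mul_assoc] using mul_mem (mem_sup_left h3) (mem_sup_right h4 : _ ∈ M₁ ⊔ M₂)

end Pool.Agent.Work.MP_36bee3_al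
end

-- merged part: Pool.Agent.Work.MP_36bee3_al.Hedge.Nil
section
/-!
A nilpotency criterion for normal subgroups of finite soluble groups.
-/

namespace Pool.Agent.Work.MP_36bee3_al

open Subgroup

/-- `O_s(B)`. -/
abbrev Op (s : ℕ) (B : Type) [Group B] : Subgroup B := rel (Submonoid.powers s) ⊥

variable {B : Type} [Group B] [Finite B]

lemma le_of_primePow {A Z : Subgroup B}
    (h : ∀ a ∈ A, ∀ s k : ℕ, s.Prime → a ^ s ^ k = 1 → a ∈ Z) : A ≤ Z := by
  have key : ∀ n : ℕ, 0 < n → ∀ a ∈ A, a ^ n = 1 → a ∈ Z := by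
    intro n
    induction n using Nat.recOnPosPrimePosCoprime with
    | prime_pow p n hp _ => exact fun _ a ha => h a ha p n hp
    | zero => exact fun h0 => absurd h0 (lt_irrefl 0)
    | one => exact fun _ a _ h1 => by rw [← pow_one a, h1]; exact one_mem _
    | coprime m n hm hn hmn ih1 ih2 =>
      intro _ a ha h1
      exact mem_of_coprime hmn (ih2 (by omega) _ (pow_mem ha _) (by rw [← pow_mul, h1]))
        (ih1 (by omega) _ (pow_mem ha _) (by rw [← pow_mul, mul_comm, h1]))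
  exact fun a ha => key _ (orderOf_pos a) a ha (pow_orderOf_eq_one a)

lemma mem_Op {K : Subgroup B} [K.Normal] (hK : Group.IsNilpotent K) {a : B} (ha : a ∈ K)
    {s k : ℕ} (hs : s.Prime) (h : a ^ s ^ k = 1) : a ∈ Op s B := by
  have := Fact.mk hs
  have h1 : IsPGroup s (zpowers (⟨a, ha⟩ : K)) := by
    rintro ⟨_, i, rfl⟩
    refine ⟨k, Subtype.ext (Subtype.ext ?_)⟩
    change (a ^ i) ^ s ^ k = 1
    rw [← zpow_natCast, ← zpow_mul, mul_comm, zpow_mul, zpow_natCast, h, one_zpow]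
  obtain ⟨P, hP⟩ := h1.exists_le_sylow
  have := P.characteristic_of_normal inferInstance
  refine le_rel (E := (P : Subgroup K).map K.subtype) inferInstance ?_
    ⟨_, hP (mem_zpowers _), rfl⟩
  rintro _ ⟨x, hx, rfl⟩
  obtain ⟨j, hj⟩ := P.isPGroup' ⟨x, hx⟩
  exact ⟨_, ⟨j, rfl⟩, congrArg (fun z : P => ((z : K) : B)) hj⟩

lemma nilpotent_step {K K' : Subgroup B} [K.Normal] [K'.Normal] (hK' : Group.IsNilpotent K')
    (hc : ⁅K, K⁆ ≤ K') (h : ∀ a b k : ℕ, a.Prime → b.Prime → a ≠ b → ∀ x ∈ K, x ^ a ^ k = 1 →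
      x ∈ cen ⊥ (Op b B)) : Group.IsNilpotent K := by
  suffices hs : ∀ (t : ℕ) (_ : Fact t.Prime) (P : Sylow t K), (P : Subgroup K).Normal from
    ((Group.isNilpotent_of_finite_tfae (G := K)).out 3 0 rfl rfl).1 hs
  refine fun t ht P => ⟨fun x hx y => ?_⟩
  obtain ⟨k, hk⟩ := P.isPGroup' ⟨x, hx⟩
  have hk' : (x : B) ^ t ^ k = 1 := congrArg (fun z : P => ((z : K) : B)) hk
  have h1 : K' ≤ cm (Op t B) x := le_of_primePow fun a ha s j hs hj => by
    have h2 := mem_Op hK' ha hs hj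
    rw [mem_cm]
    rcases eq_or_ne t s with rfl | hts
    · exact mul_mem (Normal.conj_mem inferInstance _ h2 _) (inv_mem h2)
    · exact bot_le (a := Op t B) (mem_cen.1 (h t s k ht.out hs hts x x.2 hk') a h2)
  have h2 : (x : B) * y * (x : B)⁻¹ * (y : B)⁻¹ ∈ K' := hc (commutator_mem_commutator x.2 y.2)
  have h3 := (conj_pow_mem (x : B) y (t ^ k) (mem_cm.1 (h1 h2))).1 (by rw [hk']; simp)
  obtain ⟨_, ⟨j, rfl⟩, hj⟩ := pw_rel _ _ _ h3
  have h4 := mem_Op hK' h2 ht.out (k := k + j) (by rw [pow_add, pow_mul]; exact hj)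
  have h5 : IsPGroup t ((Op t B).subgroupOf K) := by
    rintro ⟨z, hz⟩
    obtain ⟨_, ⟨i, rfl⟩, hi⟩ := pw_rel _ _ _ hz
    exact ⟨i, Subtype.ext (Subtype.ext hi)⟩
  have h6 : x * y * x⁻¹ * y⁻¹ ∈ (P : Subgroup K) := h5.le_sylow_of_normal P h4
  rw [show y * x * y⁻¹ = (x * y * x⁻¹ * y⁻¹)⁻¹ * x by group]
  exact mul_mem (inv_mem h6) hx

variable [Group.IsSolvable B]

lemma nilpotent_of_cen {R : Subgroup B} [R.Normal]
    (h : ∀ a b k : ℕ, a.Prime → b.Prime → a ≠ b → ∀ x ∈ R, x ^ a ^ k = 1 → x ∈ cen ⊥ (Op b B)) :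
    Group.IsNilpotent R := by
  obtain ⟨n, hn⟩ := Group.IsSolvable.solvable (G := B)
  have key : ∀ j i : ℕ, i + j = n → Group.IsNilpotent ↥(R ⊓ derivedSeries B i) := by
    intro j
    induction j with
    | zero =>
      rintro i rfl
      rw [show derivedSeries B i = ⊥ from hn, inf_bot_eq]
      infer_instance
    | succ j ih =>
      intro i hi
      exact nilpotent_step (ih (i + 1) (by omega))
        (le_inf ((commutator_le_left _ _).trans inf_le_left)
          (commutator_mono inf_le_right inf_le_right))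
        fun a b k ha hb hab x hx => h a b k ha hb hab x hx.1
  have := key n 0 (by omega)
  rwa [derivedSeries_zero, inf_top_eq] at this

/-- If `O_{t'}(B) = 1` and `B / C(O_t(B))` is a `t`-group then so is `B`. -/
lemma pw_of_cen {t : ℕ} (ht : t.Prime) (h0 : rel (cop t) (⊥ : Subgroup B) = ⊥)
    (h : Pw (Submonoid.powers t) (cen ⊥ (Op t B)) ⊤) : Pw (Submonoid.powers t) (⊥ : Subgroup B) ⊤ := by
  have h1 : ∀ s : ℕ, s.Prime → s ≠ t → Op s B ≤ ⊥ := fun s hs hst =>
    (le_rel inferInstance ((pw_rel _ _).mono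
      (powers_le_cop ((Nat.coprime_primes hs ht).2 hst)))).trans h0.le
  have h2 : Group.IsNilpotent (cen ⊥ (Op t B)) := nilpotent_of_cen fun a b k _ hb _ x hx _ => by
    rcases eq_or_ne b t with rfl | hbt
    · exact hx
    · exact mem_cen.2 fun e he => by simp [mem_bot.1 (h1 b hb hbt he)]
  refine h.trans ((Pw.of_le (le_of_primePow fun a ha s k hs hk => ?_)).trans (pw_rel _ _))
  rcases eq_or_ne s t with rfl | hst
  · exact mem_Op h2 ha hs hk
  · exact bot_le (a := Op t B) (h1 s hs hst (mem_Op h2 ha hs hk))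

omit [Finite B] [Group.IsSolvable B] in
lemma nilpotent_quot_iff (D : Subgroup B) [D.Normal] :
    Group.IsNilpotent (B ⧸ D) ↔ ∃ n, (⊤ : Subgroup B).lowerCentralSeries n ≤ D := by
  rw [Subgroup.nilpotent_iff_lowerCentralSeries]
  refine exists_congr fun n => ?_
  rw [← map_top_of_surjective _ (QuotientGroup.mk'_surjective D), ← map_lowerCentralSeries,
    Subgroup.map_eq_bot_iff, QuotientGroup.ker_mk']

/-- A criterion for being metanilpotent. -/
lemma metanilpotent_of (h : ∀ s t : ℕ, s.Prime → t.Prime → s ≠ t →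
    Pw (Submonoid.powers t) (rel (cop t) (cen ⊥ (Op s B))) ⊤) :
    ∃ (K : Subgroup B) (_ : K.Normal), Group.IsNilpotent K ∧ Group.IsNilpotent (B ⧸ K) := by
  obtain ⟨_, ⟨n, rfl⟩, hn⟩ := (wellFounded_lt (α := Subgroup B)).has_min
    (Set.range (⊤ : Subgroup B).lowerCentralSeries) ⟨_, 0, rfl⟩
  refine ⟨(⊤ : Subgroup B).lowerCentralSeries n, inferInstance,
    nilpotent_of_cen fun a b k ha hb hab x hx hk => ?_, (nilpotent_quot_iff _).2 ⟨n, le_rfl⟩⟩
  have := Fact.mk ha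
  have h1 : IsPGroup a (B ⧸ rel (cop a) (cen ⊥ (Op b B))) := by
    intro y
    obtain ⟨z, rfl⟩ := QuotientGroup.mk_surjective y
    obtain ⟨_, ⟨j, rfl⟩, hj⟩ := h b a hb ha hab.symm z trivial
    exact ⟨j, by rwa [← QuotientGroup.mk_pow, QuotientGroup.eq_one_iff]⟩
  obtain ⟨m, hm⟩ := (nilpotent_quot_iff _).1 h1.isNilpotent
  have h2 := (eq_of_le_of_not_lt (Subgroup.lowerCentralSeries_antitone ⊤ (le_max_left n m))
    (hn _ ⟨_, rfl⟩)).ge.trans
      ((Subgroup.lowerCentralSeries_antitone ⊤ (le_max_right n m)).trans hm)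
  obtain ⟨l, hl, h3⟩ := pw_rel _ _ _ (h2 hx)
  exact mem_of_coprime (Nat.Coprime.pow_right k hl) h3 (by rw [hk]; exact one_mem _)

end Pool.Agent.Work.MP_36bee3_al
end

-- merged part: Pool.Agent.Work.MP_36bee3_al.Hedge.Neg
section
/-!
Every finite soluble group that is not metanilpotent is the amalgamated quotient of a
subdirect product that leaves some Fischer class.
-/

namespace Pool.Agent.Work.MP_36bee3_al

open Subgroup

lemma fis_of (W : Rad) (h : ∀ (G : Type) [Group G] [Finite G], W.s G = ⊤ → ∀ L : Subgroup G,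
    Group.IsNilpotent (L ⧸ L.normalCore.subgroupOf L) → W.s L = ⊤) :
    Fis fun G _ => Finite G ∧ Group.IsSolvable G ∧ W.s G = ⊤ where
  fin _ _ h := ⟨h.1, h.2.1⟩
  iso := by
    rintro G H _ _ ⟨e⟩ ⟨h1, h2, h3⟩
    exact ⟨Finite.of_equiv _ e.toEquiv,
      Group.isSolvable_of_surjective (f := e.toMonoidHom) e.surjective, W.top_of_equiv e.symm h3⟩
  triv _ _ h := ⟨inferInstance, inferInstance, Subsingleton.elim _ _⟩
  nz _ _ h1 h2 _ N hN htop :=
    ⟨h1, h2, W.top_of_subnormal N (fun i => (hN i).1) (fun i => (hN i).2.2.2) htop⟩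
  fc := by
    rintro H _ G ⟨h1, h2, h3⟩ hG
    exact ⟨inferInstance, inferInstance, h H h3 G hG⟩

/-- The preimage of `O_{t'}(G / C(O_s(G)))`. -/
def rD {s t : ℕ} (h : s.Coprime t) : Rad :=
  Rad.ce (cop t) Rad.bot (Rad.up (Submonoid.powers s) Rad.bot)
    fun _ _ => (pw_rel _ _).mono (powers_le_cop h)

lemma rD_s {s t : ℕ} (h : s.Coprime t) (G : Type) [Group G] :
    (rD h).s G = rel (cop t) (cen ⊥ (Op s G)) := rfl

/-- The radical of the class. -/
def rW {s t u : ℕ} (hs : s.Coprime t) (hu : u.Coprime t) : Rad :=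
  Rad.ce (Submonoid.powers t) ((rD hu).inf (rD hs))
    ((rD hs).inf (Rad.up (Submonoid.powers t) (rD hu))) fun _ _ e he => by
      obtain ⟨n, hn, h⟩ := pw_rel _ _ e he.2
      exact ⟨n, hn, h, pow_mem he.1 n⟩

lemma map_rel_le {G H : Type} [Group G] [Group H] {S : Submonoid ℕ} {D : Subgroup G} [D.Normal]
    {D' : Subgroup H} {f : G →* H} (hf : Function.Surjective f) (h : ∀ x ∈ D, f x ∈ D') {g : G}
    (hg : g ∈ rel S D) : f g ∈ rel S D' := by
  refine le_rel ((rel_normal S D).map f hf) ?_ ⟨g, hg, rfl⟩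
  rintro _ ⟨x, hx, rfl⟩
  obtain ⟨n, hn, h1⟩ := pw_rel S D x hx
  exact ⟨n, hn, map_pow f x n ▸ h _ h1⟩

lemma Wr.mem_cen_Op {u : ℕ} [Fact (1 < u)] {Q R : Type} [Group Q] [Group R] {π : Q →* R}
    (hQ : ∀ (g : Q) (k : ℕ), g ^ u ^ k = 1 → g = 1) (g : Wr u π) :
    g ∈ cen ⊥ (Op u (Wr u π)) ↔ π (Wr.pr g) = 1 := by
  rw [mem_cen]
  constructor
  · intro h
    refine Wr.eq_one_of_commute fun v => h _ (le_rel (E := (Wr.pr : Wr u π →* Q).ker)
      inferInstance (fun e he => ⟨u, Submonoid.mem_powers u, Wr.pow_eq_one he⟩) (Wr.pr_base v))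
  · intro h e he
    obtain ⟨_, ⟨k, rfl⟩, hk⟩ := pw_rel _ _ e he
    obtain ⟨v, rfl⟩ := Wr.eq_base (g := e) (hQ _ k (by rw [← map_pow, mem_bot.1 hk, map_one]))
    exact Wr.commute_base h v

lemma Wr.sec_mem_Op {u s : ℕ} {Q R : Type} [Group Q] [Group R] {π : Q →* R}
    (h : ∀ y ∈ Op s Q, π y = 1) {y : Q} (hy : y ∈ Op s Q) :
    (Wr.sec y : Wr u π) ∈ Op s (Wr u π) := by
  refine le_rel (E := (Op s Q).map Wr.sec) ⟨?_⟩ ?_ ⟨y, hy, rfl⟩
  · rintro _ ⟨z, hz, rfl⟩ g
    have hz' := Normal.conj_mem inferInstance z hz (Wr.pr g)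
    refine ⟨_, hz', ?_⟩
    obtain ⟨v, hv⟩ := Wr.eq_base (g := g * (Wr.sec (Wr.pr g))⁻¹) (by simp [Wr.pr_sec])
    have h1 := Wr.commute_base (g := (Wr.sec (Wr.pr g * z * (Wr.pr g)⁻¹) : Wr u π)) (h _ hz') v
    rw [hv, map_mul, map_mul, map_inv] at h1
    rw [map_mul, map_mul, map_inv, ← mul_inv_eq_one, ← h1]
    group
  · rintro _ ⟨z, hz, rfl⟩
    obtain ⟨n, hn, h1⟩ := pw_rel _ _ z hz
    exact ⟨n, hn, by rw [← map_pow, mem_bot.1 h1, map_one]; exact one_mem _⟩

lemma exists_bad {Q : Type} [Group Q] [Finite Q] [Group.IsSolvable Q]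
    (hQ : ¬ ∃ (K : Subgroup Q) (_ : K.Normal), Group.IsNilpotent K ∧ Group.IsNilpotent (Q ⧸ K)) :
    ∃ X : (G : Type) → [Group G] → Prop, Fis X ∧
      ∃ (G : Type) (_ : Group G) (_ : Finite G) (_ : Group.IsSolvable G) (M₁ M₂ : Subgroup G)
        (_ : M₁.Normal) (_ : M₂.Normal), M₁ ⊓ M₂ = ⊥ ∧ Nonempty (G ⧸ (M₁ ⊔ M₂) ≃* Q) ∧
        X (G ⧸ M₁) ∧ X (G ⧸ M₂) ∧ ¬ X G := by
  obtain ⟨s, t, hs, ht, hst, hbad⟩ : ∃ s t : ℕ, s.Prime ∧ t.Prime ∧ s ≠ t ∧
      ¬ Pw (Submonoid.powers t) (rel (cop t) (cen ⊥ (Op s Q))) ⊤ := by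
    by_contra h
    exact hQ (metanilpotent_of fun s t hs ht hst => by_contra fun h1 => h ⟨s, t, hs, ht, hst, h1⟩)
  obtain ⟨u, hu1, hu⟩ := Nat.exists_infinite_primes (Nat.card Q + s + t + 1)
  have hpos : 0 < Nat.card Q := Nat.card_pos
  have cst : s.Coprime t := (Nat.coprime_primes hs ht).2 hst
  have cut : u.Coprime t := (Nat.coprime_primes hu ht).2 (by omega)
  have csu : s.Coprime u := (Nat.coprime_primes hs hu).2 (by omega)
  have := Fact.mk hu.one_lt
  have := Fact.mk ht.one_lt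
  have : NeZero u := ⟨hu.ne_zero⟩
  have : NeZero t := ⟨ht.ne_zero⟩
  have nQ : ∀ (g : Q) (k : ℕ), g ^ u ^ k = 1 → g = 1 := fun g k hg =>
    eq_one_of_coprime (Nat.Coprime.pow_left k (Nat.coprime_of_lt_prime hpos.ne' (by omega) hu)) hg
      (pow_card_eq_one' (x := g))
  have nG : ∀ (g : Wr t (MonoidHom.id Q)) (k : ℕ), g ^ u ^ k = 1 → g = 1 := fun g k hg =>
    eq_one_of_coprime (Nat.Coprime.pow_left k cut) hg
      (Wr.pow_eq_one (nQ _ k (by rw [← map_pow, hg, map_one])))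
  set D := rel (cop t) (cen ⊥ (Op s Q)) with hD
  let π : Q →* Q ⧸ D := QuotientGroup.mk' D
  let f : Wr t (MonoidHom.id Q) →* Q := Wr.pr
  let φ : Wr u (π.comp f) →* Wr u π := Wr.map f
  let ψ : Wr u (π.comp f) →* Wr t (MonoidHom.id Q) := Wr.pr
  have hπ : ∀ y, π y = 1 ↔ y ∈ D := fun y => QuotientGroup.eq_one_iff y
  have hfψ : Function.Surjective (f.comp ψ) := Wr.pr_surjective.comp Wr.pr_surjective
  refine ⟨_, fis_of (rW cst cut) fun G _ _ h L hL => top_of_fischer ht _ _ _ h L hL,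
    Wr u (π.comp f), inferInstance, inferInstance, inferInstance, φ.ker, ψ.ker, inferInstance,
    inferInstance, Wr.ker_inf_ker _, ⟨(QuotientGroup.quotientMulEquivOfEq ?_).trans
      (QuotientGroup.quotientKerEquivOfSurjective _ hfψ)⟩,
    ⟨inferInstance, inferInstance, Rad.top_of_equiv _ (QuotientGroup.quotientKerEquivOfSurjective _
      (Wr.map_surjective _ Wr.pr_surjective)) (ce_top_of_le fun g hg => ⟨?_, hg.1⟩)⟩,
    ⟨inferInstance, inferInstance, Rad.top_of_equiv _ (QuotientGroup.quotientKerEquivOfSurjective _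
      Wr.pr_surjective) (ce_top_of_le fun g hg => ⟨?_, hg.1⟩)⟩, fun h => hbad ?_⟩
  · refine le_antisymm (sup_le (fun g hg => ?_) fun g hg => ?_) fun g hg => ?_
    · exact congrArg (Wr.pr : Wr u π →* Q) (MonoidHom.mem_ker.1 hg)
    · rw [MonoidHom.mem_ker, MonoidHom.comp_apply, MonoidHom.mem_ker.1 hg, map_one]
    · rw [show g = Wr.sec (ψ g) * ((Wr.sec (ψ g))⁻¹ * g) by group]
      refine mul_mem (mem_sup_left ?_) (mem_sup_right (by simp [ψ, Wr.pr_sec]))
      exact (congrArg (Wr.sec : Q →* Wr u π) (MonoidHom.mem_ker.1 hg)).trans (map_one _)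
  · refine self_le_rel _ _ ((Wr.mem_cen_Op nQ g).2 ((hπ _).2 ?_))
    refine map_rel_le Wr.pr_surjective (fun x hx => mem_cen.2 fun y hy => ?_) hg.1
    have h1 := mem_cen.1 hx _ (Wr.sec_mem_Op (u := u) (π := π) (fun z hz => (hπ z).2
      (le_rel inferInstance (((pw_rel _ _).mono (powers_le_cop cst)).trans (Pw.of_le bot_le)) hz)) hy)
    simpa [Wr.pr_sec] using congrArg Wr.pr (mem_bot.1 h1)
  · refine self_le_rel _ _ (mem_cen.2 fun e he => ?_)
    obtain ⟨_, ⟨k, rfl⟩, hk⟩ := pw_rel _ _ e he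
    simp [nG e k hk]
  · have hρ := (QuotientGroup.mk'_surjective D).comp hfψ
    have h0 : rel (cop t) (⊥ : Subgroup (Q ⧸ D)) = ⊥ := by
      rw [eq_bot_iff]
      intro y hy
      obtain ⟨z, rfl⟩ := QuotientGroup.mk'_surjective D y
      refine (hπ z).2 (le_rel (E := (rel (cop t) ⊥).comap π) inferInstance
        (Pw.trans (fun e he => ?_) (pw_rel _ _)) hy)
      obtain ⟨n, hn, h1⟩ := pw_rel _ _ _ he
      exact ⟨n, hn, (hπ _).1 ((map_pow π e n).trans h1)⟩
    have h1 : ∀ g : Wr u (π.comp f), g ∈ (rD cst).s _ := fun g =>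
      self_le_rel _ _ (mem_cen.2 fun e he => by
        have h2 : ψ e ∈ Op s _ := map_rel_le Wr.pr_surjective 
          (fun x hx => by rw [mem_bot.1 hx, map_one]; exact one_mem _) he
        rw [Wr.eq_bot_of_cop (Op s _) inferInstance ((pw_rel _ _).mono (powers_le_cop cst))] at h2
        obtain ⟨_, ⟨k, rfl⟩, hk⟩ := pw_rel _ _ e he
        simp [eq_one_of_coprime (Nat.Coprime.pow_left k csu) hk (Wr.pow_eq_one h2)])
    have h2 := pw_of_cen ht h0 fun b _ => by
      obtain ⟨g, rfl⟩ := hρ b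
      obtain ⟨n, hn, h3⟩ := pw_rel _ _ g (h.2.2.ge (mem_top g))
      refine ⟨n, hn, mem_cen.2 fun e he => ?_⟩
      obtain ⟨x, rfl⟩ := hρ e
      have h4 := (mem_cen.1 h3 x ⟨h1 x, le_rel (E := (Op t _).comap (π.comp (f.comp ψ)))
        inferInstance (fun y hy => by
          obtain ⟨m, hm, h5⟩ := pw_rel _ _ _ hy
          exact ⟨m, hm, self_le_rel _ _ ((Wr.mem_cen_Op nG _).2
            ((map_pow (π.comp (f.comp ψ)) y m).trans h5))⟩) he⟩).1
      have h5 := map_rel_le (f := π.comp (f.comp ψ)) (D' := ⊥) hρ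
        (fun y hy => (Wr.mem_cen_Op nG y).1 hy) h4
      rw [h0, map_mul, map_mul, map_mul, map_inv, map_inv, map_pow] at h5
      exact h5
    intro q _
    obtain ⟨n, hn, h3⟩ := h2 (π q) trivial
    exact ⟨n, hn, (hπ _).1 ((map_pow π q n).trans h3)⟩

end Pool.Agent.Work.MP_36bee3_al
end
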