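import Pool.Agent.Work.MP_36bee3_al.Hedge.Neg

-- merged part: Pool.Agent.Work.MP_36bee3_al.Hedge.Cen
section
/-!
The centraliser in `O_{p,q}(G)` of the centre of `O_p(G)` is the radical of a Fitting class.
-/

namespace Pool.Agent.Work.MP_36bee3_al

open Subgroup

/-- The centre of a subgroup. -/
def zc {G : Type} [Group G] (D : Subgroup G) : Subgroup G := D ⊓ centralizer (D : Set G)

instance zc_normal {G : Type} [Group G] (D : Subgroup G) [D.Normal] : (zc D).Normal := by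
  unfold zc
  infer_instance

lemma cen_zc_iff {G : Type} [Group G] [Finite G] {p q : ℕ} (hp : p.Prime) (hpq : p.Coprime q)
    (R : Subgroup G) [hR : R.Normal] {b : G} (hA : b ∈ rel (Submonoid.powers q) (Op p G))
    (hb : b ∈ R) : b ∈ centralizer (zc (Op p G ⊓ R) : Set G) ↔
      b ∈ centralizer (zc (Op p G) : Set G) := by
  set D := Op p G with hD
  obtain ⟨_, ⟨k, rfl⟩, hk⟩ := pw_rel _ _ b hA
  have fin : ∀ z : G, b * z * b⁻¹ * z⁻¹ ∈ D → Commute b (b * z * b⁻¹ * z⁻¹) →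
      b ^ q ^ k * z = z * b ^ q ^ k → z * b = b * z := by
    intro z h1 h2 h3
    obtain ⟨_, ⟨j, rfl⟩, hj⟩ := pw_rel _ _ _ h1
    have h4 := conj_pow_eq b z h2 (q ^ k)
    rw [h3, mul_inv_cancel_right, mul_inv_cancel] at h4
    have h5 := eq_one_of_coprime (Nat.Coprime.pow j k hpq) (mem_bot.1 hj) h4.symm
    rw [mul_inv_eq_one, mul_inv_eq_iff_eq_mul] at h5
    exact h5.symm
  constructor
  · intro h z hz
    have h1 : b * z * b⁻¹ * z⁻¹ ∈ zc D :=
      mul_mem (Normal.conj_mem inferInstance z hz b) (inv_mem hz)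
    have h2 : b * z * b⁻¹ * z⁻¹ ∈ R := by
      rw [show b * z * b⁻¹ * z⁻¹ = b * (z * b⁻¹ * z⁻¹) by group]
      exact mul_mem hb (hR.conj_mem _ (inv_mem hb) z)
    exact fin z h1.1 (h _ ⟨⟨h1.1, h2⟩, fun d hd => h1.2 d hd.1⟩).symm (hz.2 _ hk)
  · intro h
    have := Fact.mk hp
    have hP : IsPGroup p D := by
      rintro ⟨z, hz⟩
      obtain ⟨_, ⟨i, rfl⟩, hi⟩ := pw_rel _ _ _ hz
      exact ⟨i, Subtype.ext hi⟩
    obtain ⟨n, hn⟩ := hP.isNilpotent.nilpotent
    have key : ∀ (i : ℕ) (z : D), (z : G) ∈ zc (D ⊓ R) → z ∈ Subgroup.upperCentralSeries D i →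
        z * b = b * z := by
      intro i
      induction i with
      | zero =>
        intro z _ hz
        simp [mem_bot.1 hz]
      | succ i ih =>
        intro z hz hi
        have hz' := Normal.conj_mem inferInstance _ hz b
        have h1 := mul_mem hz' (inv_mem hz)
        refine fin z h1.1.1 (h _ ⟨h1.1.1, fun d hd => ?_⟩).symm (hz.2 _ ⟨hk, pow_mem hb _⟩)
        have hd' : b⁻¹ * d * b ∈ D := by simpa using Normal.conj_mem inferInstance d hd b⁻¹
        have h2 : d⁻¹ * (b⁻¹ * d * b) ∈ R := by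
          rw [show d⁻¹ * (b⁻¹ * d * b) = d⁻¹ * b⁻¹ * d⁻¹⁻¹ * b by group]
          exact mul_mem (hR.conj_mem _ (inv_mem hb) _) hb
        have h3 := hz.2 _ ⟨D.mul_mem (D.inv_mem hd) hd', h2⟩
        have hw : (z : G) * d * (z : G)⁻¹ * d⁻¹ ∈ zc (D ⊓ R) := by
          rw [show (z : G) * d * (z : G)⁻¹ * d⁻¹ = z * (d * (z : G)⁻¹ * d⁻¹) by group]
          exact (zc (D ⊓ R)).mul_mem hz (Normal.conj_mem inferInstance _ (inv_mem hz) d)
        have h4 : (z : G) * d * (z : G)⁻¹ * d⁻¹ * b = b * ((z : G) * d * (z : G)⁻¹ * d⁻¹) :=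
          ih _ hw (Subgroup.mem_upperCentralSeries_succ_iff.1 hi ⟨d, hd⟩)
        have h5 := hw.2 _ h1.1
        have h6 : b⁻¹ * d * b * z = d * z * d⁻¹ * (b⁻¹ * d * b) := by
          rw [show b⁻¹ * d * b * z = d * (d⁻¹ * (b⁻¹ * d * b) * z) by group, h3]
          group
        have h7 : d * (b * z * b⁻¹) * d⁻¹ = b * (d * z * d⁻¹) * b⁻¹ := by
          rw [show d * (b * z * b⁻¹) * d⁻¹ = b * (b⁻¹ * d * b * z) * b⁻¹ * d⁻¹ by group, h6]
          group
        have h8 : d * z * d⁻¹ = ((z : G) * d * (z : G)⁻¹ * d⁻¹)⁻¹ * z := by group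
        generalize (z : G) * d * (z : G)⁻¹ * d⁻¹ = w at h4 h5 h8
        calc d * (b * z * b⁻¹ * (z : G)⁻¹)
            = d * (b * z * b⁻¹) * d⁻¹ * (d * z * d⁻¹)⁻¹ * d := by group
          _ = b * w⁻¹ * z * b⁻¹ * (z : G)⁻¹ * w * d := by
            rw [h7, h8]
            group
          _ = w⁻¹ * (b * z * b⁻¹ * (z : G)⁻¹ * w) * d := by
            rw [(Commute.inv_right (show Commute b w from h4.symm)).eq]
            group
          _ = b * z * b⁻¹ * (z : G)⁻¹ * d := by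
            rw [h5]
            group
    exact fun z hz => key n ⟨z, hz.1.1⟩ hz (hn ▸ mem_top _)

/-- The centraliser in `O_{p,q}(G)` of the centre of `O_p(G)`. -/
def rE {p q : ℕ} (hp : p.Prime) (hpq : p.Coprime q) : Rad where
  s G _ := rel (Submonoid.powers q) (Op p G) ⊓ centralizer (zc (Op p G) : Set G)
  normal _ _ := inferInstance
  comap := by
    intro N G _ _ _ f hf hn
    have h1 : Op p N = (Op p G).comap f := (Rad.up _ Rad.bot).comap f hf hn
    have h2 : rel (Submonoid.powers q) (Op p N) = (rel (Submonoid.powers q) (Op p G)).comap f :=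
      (Rad.up _ (Rad.up _ Rad.bot)).comap f hf hn
    ext y
    rw [comap_inf, mem_inf, mem_inf, h2, mem_comap, mem_comap]
    refine and_congr_right fun hy => ?_
    rw [← cen_zc_iff hp hpq f.range hy ⟨y, rfl⟩, h1]
    constructor
    · rintro h _ ⟨⟨h3, x, rfl⟩, h4⟩
      rw [← map_mul, ← map_mul, h x ⟨h3, fun d hd => hf (by
        rw [map_mul, map_mul]; exact h4 _ ⟨hd, d, rfl⟩)⟩]
    · intro h x hx
      refine hf ?_
      rw [map_mul, map_mul]
      refine h _ ⟨⟨hx.1, x, rfl⟩, ?_⟩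
      rintro _ ⟨h3, d, rfl⟩
      rw [← map_mul, ← map_mul, hx.2 d h3]

end Pool.Agent.Work.MP_36bee3_al
end

-- merged part: Pool.Agent.Work.MP_36bee3_al.Hedge.Heis
section
/-!
Two Heisenberg groups over the permutation module of `H`, extended by `H`.
-/

namespace Pool.Agent.Work.MP_36bee3_al

open Subgroup

/-- The group `(S × S) ⋊ H`. -/
@[ext] structure HG (p : ℕ) (H : Type) where
  a : Bool → H → ZMod p
  b : Bool → H → ZMod p
  y : Bool → ZMod p
  h : H

namespace HG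

variable {p : ℕ} {H : Type} [Group H] [Fintype H]

instance : Mul (HG p H) := ⟨fun g g' => ⟨fun j i => g.a j i + g'.a j (g.h⁻¹ * i),
  fun j i => g.b j i + g'.b j (g.h⁻¹ * i),
  fun j => g.y j + g'.y j + ∑ i, g.a j i * g'.b j (g.h⁻¹ * i), g.h * g'.h⟩⟩

instance : One (HG p H) := ⟨⟨0, 0, 0, 1⟩⟩

instance : Inv (HG p H) := ⟨fun g => ⟨fun j i => -g.a j (g.h * i), fun j i => -g.b j (g.h * i),
  fun j => -g.y j + ∑ i, g.a j i * g.b j i, g.h⁻¹⟩⟩

@[simp] lemma mul_a (g g' : HG p H) (j i) : (g * g').a j i = g.a j i + g'.a j (g.h⁻¹ * i) := rfl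
@[simp] lemma mul_b (g g' : HG p H) (j i) : (g * g').b j i = g.b j i + g'.b j (g.h⁻¹ * i) := rfl
@[simp] lemma mul_y (g g' : HG p H) (j) :
    (g * g').y j = g.y j + g'.y j + ∑ i, g.a j i * g'.b j (g.h⁻¹ * i) := rfl
@[simp] lemma mul_h (g g' : HG p H) : (g * g').h = g.h * g'.h := rfl
omit [Fintype H] in
@[simp] lemma one_a (j i) : (1 : HG p H).a j i = 0 := rfl
omit [Fintype H] in
@[simp] lemma one_b (j i) : (1 : HG p H).b j i = 0 := rfl
omit [Fintype H] in
@[simp] lemma one_y (j) : (1 : HG p H).y j = 0 := rfl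
omit [Fintype H] in
@[simp] lemma one_h : (1 : HG p H).h = 1 := rfl
@[simp] lemma inv_a (g : HG p H) (j i) : g⁻¹.a j i = -g.a j (g.h * i) := rfl
@[simp] lemma inv_b (g : HG p H) (j i) : g⁻¹.b j i = -g.b j (g.h * i) := rfl
@[simp] lemma inv_y (g : HG p H) (j) : g⁻¹.y j = -g.y j + ∑ i, g.a j i * g.b j i := rfl
@[simp] lemma inv_h (g : HG p H) : g⁻¹.h = g.h⁻¹ := rfl

instance : Group (HG p H) := Group.ofLeftAxioms
  (fun g g' g'' => by
    ext j i
    · simp [add_assoc, mul_assoc]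
    · simp [add_assoc, mul_assoc]
    · have := Equiv.sum_comp (Equiv.mulLeft g.h⁻¹) fun i => g'.a j i * g''.b j (g'.h⁻¹ * i)
      simp only [Equiv.coe_mulLeft] at this
      simp only [mul_y, mul_a, mul_b, mul_h, mul_inv_rev, mul_assoc, add_mul, mul_add,
        Finset.sum_add_distrib, this]
      ring
    · simp [mul_assoc])
  (fun g => by ext <;> simp)
  (fun g => by
    ext j i
    · simp
    · simp
    · have := Equiv.sum_comp (Equiv.mulLeft g.h) fun i => g.a j i * g.b j i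
      simp only [Equiv.coe_mulLeft] at this
      simp [this]
    · simp)

instance [NeZero p] : Finite (HG p H) :=
  Finite.of_injective (fun g => (g.a, g.b, g.y, g.h)) fun g g' h => by
    simp only [Prod.mk.injEq] at h
    exact HG.ext h.1 h.2.1 h.2.2.1 h.2.2.2

/-- The projection onto `H`. -/
def pr : HG p H →* H where
  toFun g := g.h
  map_one' := rfl
  map_mul' _ _ := rfl

lemma pr_surjective : Function.Surjective (pr : HG p H →* H) := fun h => ⟨⟨0, 0, 0, h⟩, rfl⟩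

/-- The centre of one of the Heisenberg groups. -/
def ze (j : Bool) : Cy p →* HG p H where
  toFun c := ⟨0, 0, Pi.single j c.toAdd, 1⟩
  map_one' := by ext <;> simp
  map_mul' c d := by ext <;> simp [Pi.single_add]

lemma ze_injective (j : Bool) : Function.Injective (ze j : Cy p →* HG p H) := fun c d h => by
  simpa [ze] using congrFun (congrArg HG.y h) j

lemma mem_center {g : HG p H} (ha : g.a = 0) (hb : g.b = 0) (hh : g.h = 1) : g ∈ center (HG p H) :=
  mem_center_iff.2 fun x => by ext <;> simp [ha, hb, hh, add_comm]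

lemma ze_le (j : Bool) : (ze j : Cy p →* HG p H).range ≤ center _ := by
  rintro _ ⟨c, rfl⟩
  exact mem_center rfl rfl rfl

instance (j : Bool) : (ze j : Cy p →* HG p H).range.Normal :=
  ⟨fun x hx g => by rwa [mem_center_iff.1 (ze_le j hx) g, mul_inv_cancel_right]⟩

lemma ze_inf : (ze true : Cy p →* HG p H).range ⊓ (ze false).range = ⊥ := by
  rw [eq_bot_iff]
  rintro _ ⟨⟨c, rfl⟩, d, h⟩
  have : c = 1 := toAdd_eq_zero.1 (Eq.symm (by simpa [ze] using congrFun (congrArg HG.y h) true))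
  simp [this]

lemma pow_ab {g : HG p H} (hg : g.h = 1) (n : ℕ) :
    (g ^ n).a = n • g.a ∧ (g ^ n).b = n • g.b := by
  induction n with
  | zero => exact ⟨by ext; simp, by ext; simp⟩
  | succ n ih =>
    rw [pow_succ']
    constructor <;> ext <;> simp [hg, ih.1, ih.2, add_mul, add_comm]

lemma pow_y {g : HG p H} (ha : g.a = 0) (n : ℕ) : (g ^ n).y = n • g.y := by
  induction n with
  | zero => ext; simp
  | succ n ih =>
    rw [pow_succ']
    ext
    simp [ha, ih, add_mul, add_comm]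

lemma pow_sq {g : HG p H} (hg : g.h = 1) : g ^ p ^ 2 = 1 := by
  have h1 : (g ^ p).h = 1 := (map_pow pr g p).trans (by rw [show pr g = 1 from hg, one_pow])
  have h2 : (g ^ p).a = 0 := by rw [(pow_ab hg p).1]; ext; simp
  rw [sq, pow_mul]
  refine HG.ext ?_ ?_ ?_ ((map_pow pr _ p).trans (by rw [show pr (g ^ p) = 1 from h1, one_pow]; rfl))
  · rw [(pow_ab h1 p).1]; ext; simp
  · rw [(pow_ab h1 p).2]; ext; simp
  · rw [pow_y h2]; ext; simp

/-- An element that commutes with the kernel of the projection is central. -/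
lemma center_of [Fact p.Prime] {z : HG p H} (hz : z.h = 1) (h : ∀ d : HG p H, d.h = 1 → d * z = z * d) :
    z ∈ center (HG p H) := by
  classical
  refine mem_center ?_ ?_ hz
  · ext j i
    have := congrFun (congrArg HG.y (h ⟨0, fun _ => Pi.single i 1, 0, 1⟩ rfl)) j
    simpa [hz, Pi.single_apply, eq_comm] using this
  · ext j i
    have := congrFun (congrArg HG.y (h ⟨fun _ => Pi.single i 1, 0, 0, 1⟩ rfl)) j
    simpa [hz, Pi.single_apply] using this

/-- Elements of one Heisenberg group. -/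
def wa (j : Bool) (v : H → ZMod p) : HG p H := ⟨Pi.single j v, 0, 0, 1⟩

lemma wa_comm (j : Bool) (v : H → ZMod p) {d : HG p H} (hd : d.h = 1) :
    (d * wa j v)⁻¹ * (wa j v * d) ∈ (ze j : Cy p →* HG p H).range := by
  refine ⟨Multiplicative.ofAdd (∑ i, v i * d.b j i), ?_⟩
  rw [eq_inv_mul_iff_mul_eq]
  ext k i
  · simp [ze, wa, hd, add_comm]
  · simp [ze, wa]
  · rcases eq_or_ne k j with rfl | hk
    · simp [ze, wa]
    · simp [ze, wa, hk]
  · simp [ze, wa, hd]

lemma eq_one_of_wa [Fact p.Prime] (j : Bool) {g : HG p H}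
    (h : ∀ v, (wa j v * g)⁻¹ * (g * wa j v) ∈ (ze j : Cy p →* HG p H).range) : g.h = 1 := by
  classical
  obtain ⟨c, hc⟩ := h (Pi.single 1 1)
  rw [eq_inv_mul_iff_mul_eq] at hc
  have := congrFun (congrFun (congrArg HG.a hc) j) 1
  by_contra hne
  simp [ze, wa, hne] at this

end HG

end Pool.Agent.Work.MP_36bee3_al
end

-- merged part: Pool.Agent.Work.MP_36bee3_al.Hedge.Three
section
/-!
A Fischer class of nilpotent length three that is not closed under subdirect products.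
-/

namespace Pool.Agent.Work.MP_36bee3_al

open Subgroup

/-- `O_{p,q,r}(G)`. -/
def rY (p q r : ℕ) : Rad := Rad.up (Submonoid.powers r)
  (Rad.up (Submonoid.powers q) (Rad.up (Submonoid.powers p) Rad.bot))

lemma comap_rel_le {G H : Type} [Group G] [Group H] {S : Submonoid ℕ} {D : Subgroup G}
    {D' : Subgroup H} [D'.Normal] {f : G →* H} (h : D'.comap f ≤ D) :
    (rel S D').comap f ≤ rel S D :=
  le_rel inferInstance fun e he => by
    obtain ⟨n, hn, h1⟩ := pw_rel S D' _ he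
    exact ⟨n, hn, h (by rwa [mem_comap, map_pow])⟩

lemma rY_sub {p q r : ℕ} {G : Type} [Group G] (h : (rY p q r).s G = ⊤) (L : Subgroup G) :
    (rY p q r).s L = ⊤ := by
  rw [eq_top_iff, ← comap_top L.subtype, ← h]
  exact comap_rel_le (comap_rel_le (comap_rel_le fun x hx => Subtype.ext hx))

lemma rY_tower {p q r : ℕ} {G : Type} [Group G] (h : (rY p q r).s G = ⊤) :
    ∃ (A B : Subgroup G) (_ : A.Normal) (_ : B.Normal), A ≤ B ∧ IsPGroup p A ∧
      IsPGroup q (B.map (QuotientGroup.mk' A)) ∧ IsPGroup r (G ⧸ B) := by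
  refine ⟨Op p G, rel (Submonoid.powers q) (Op p G), inferInstance, inferInstance,
    self_le_rel _ _, ?_, ?_, fun y => ?_⟩
  · rintro ⟨z, hz⟩
    obtain ⟨_, ⟨i, rfl⟩, hi⟩ := pw_rel _ _ _ hz
    exact ⟨i, Subtype.ext hi⟩
  · rintro ⟨_, z, hz, rfl⟩
    obtain ⟨_, ⟨i, rfl⟩, hi⟩ := pw_rel _ _ _ hz
    exact ⟨i, Subtype.ext ((QuotientGroup.eq_one_iff _).2 hi)⟩
  · obtain ⟨z, rfl⟩ := QuotientGroup.mk_surjective y
    obtain ⟨_, ⟨i, rfl⟩, hi⟩ := pw_rel _ _ _ (h.ge (mem_top z))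
    exact ⟨i, (QuotientGroup.eq_one_iff _).2 hi⟩

variable {p q r : ℕ} (hp : p.Prime) (hpq : p.Coprime q)

/-- The radical of the class. -/
def rV (r : ℕ) : Rad :=
  (Rad.ce (Submonoid.powers q) (Rad.up (Submonoid.powers p) Rad.bot) (rE hp hpq)
    fun _ _ e he => pw_rel _ _ e he.1).inf (rY p q r)

lemma fis_rV (hq : q.Prime) :
    Fis fun G _ => Finite G ∧ Group.IsSolvable G ∧ (rV hp hpq r).s G = ⊤ :=
  fis_of _ fun _ _ _ h L hL => inf_eq_top_iff.2
    ⟨top_of_fischer hq _ _ _ (inf_eq_top_iff.1 h).1 L hL, rY_sub (inf_eq_top_iff.1 h).2 L⟩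

/-- `C_q ≀ C_r`. -/
abbrev Hq (q r : ℕ) : Type := Wr q (MonoidHom.id (Cy r))

section Over

variable {Γ : Type} [Group Γ] {φ : Γ →* Hq q r} (hk : ∀ g, φ g = 1 → g ^ p ^ 2 = 1)
include hk

lemma ker_le_Op : φ.ker ≤ Op p Γ := le_rel inferInstance fun g hg => ⟨_, ⟨2, rfl⟩, hk g hg⟩

lemma ker_le_rel : (Wr.pr.comp φ).ker ≤ rel (Submonoid.powers q) (Op p Γ) :=
  le_rel inferInstance fun g hg => ⟨q, Submonoid.mem_powers q,
    ker_le_Op hk ((map_pow φ g q).trans (Wr.pow_eq_one hg))⟩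

lemma rY_top : (rY p q r).s Γ = ⊤ :=
  eq_top_iff.2 (le_rel inferInstance fun g _ => ⟨r, Submonoid.mem_powers r,
    ker_le_rel hk ((map_pow _ g r).trans (cy_pow _))⟩)

omit hk in
include hpq in
lemma Op_le_ker [Fact (1 < q)] (hφ : Function.Surjective φ) : Op p Γ ≤ φ.ker := fun g hg => by
  have h : φ g ∈ Op p _ :=
    map_rel_le hφ (fun x hx => by rw [mem_bot.1 hx, map_one]; exact one_mem _) hg
  rwa [Wr.eq_bot_of_cop (Op p _) inferInstance ((pw_rel _ _).mono (powers_le_cop hpq))] at h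

end Over

variable [Fintype (Hq q r)] [Fact (1 < q)]

lemma rV_quot (j : Bool) : (rV hp hpq r).s (HG p (Hq q r) ⧸ (HG.ze j).range) = ⊤ := by
  have := Fact.mk hp
  let φ : HG p (Hq q r) ⧸ (HG.ze j).range →* Hq q r :=
    QuotientGroup.lift _ HG.pr (by rintro _ ⟨c, rfl⟩; rfl)
  have hk : ∀ g, φ g = 1 → g ^ p ^ 2 = 1 := fun g hg => by
    obtain ⟨x, rfl⟩ := QuotientGroup.mk_surjective g
    rw [← QuotientGroup.mk_pow, HG.pow_sq hg, QuotientGroup.mk_one]
  have hφ : Function.Surjective φ := fun h => by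
    obtain ⟨x, rfl⟩ := HG.pr_surjective (p := p) h
    exact ⟨x, rfl⟩
  refine inf_eq_top_iff.2 ⟨ce_top_of_le fun e he => ker_le_Op hk ?_, rY_top hk⟩
  obtain ⟨x, rfl⟩ := QuotientGroup.mk_surjective e
  refine HG.eq_one_of_wa j fun v => QuotientGroup.eq.1 (he.2 (HG.wa j v : HG p _)
    ⟨ker_le_Op hk rfl, fun d hd => ?_⟩)
  obtain ⟨y, rfl⟩ := QuotientGroup.mk_surjective d
  exact QuotientGroup.eq.2 (HG.wa_comm j v (Op_le_ker hpq hφ hd))

lemma rV_ne (hr : 1 < r) (hqr : q.Coprime r) : (rV hp hpq r).s (HG p (Hq q r)) ≠ ⊤ := by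
  have := Fact.mk hp
  have := Fact.mk hr
  intro h
  have hk : ∀ g : HG p (Hq q r), HG.pr g = 1 → g ^ p ^ 2 = 1 := fun g hg => HG.pow_sq hg
  obtain ⟨x, hx⟩ := HG.pr_surjective (p := p) (Wr.sec (Multiplicative.ofAdd 1) : Hq q r)
  obtain ⟨_, ⟨k, rfl⟩, h1⟩ := pw_rel _ _ x ((inf_eq_top_iff.1 h).1.ge (mem_top x))
  have h2 : (Multiplicative.ofAdd 1 : Cy r) ^ q ^ k = 1 := by
    refine (map_pow (Wr.pr : Hq q r →* Cy r) (Wr.sec _) _).symm.trans
      (Wr.eq_one_of_commute (π := MonoidHom.id (Cy r)) fun v => ?_)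
    obtain ⟨e, he⟩ := HG.pr_surjective (p := p) (Wr.base v : Hq q r)
    have h3 := Op_le_ker hpq HG.pr_surjective (mem_cen.1 h1 e ⟨ker_le_rel hk
      ((congrArg Wr.pr he).trans (Wr.pr_base v)), fun z hz => (mem_center_iff.1 (HG.center_of
        (Op_le_ker hpq HG.pr_surjective hz.1) fun d hd => hz.2 d (ker_le_Op hk hd)) e).symm⟩)
    rwa [MonoidHom.mem_ker, map_mul, map_mul, map_mul, map_inv, map_inv, map_pow, hx, he] at h3
  have h3 := eq_one_of_coprime (Nat.Coprime.pow_left k hqr) h2 (cy_pow _)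
  simp at h3

theorem exists_three {p q r : ℕ} (hp : p.Prime) (hq : q.Prime) (hr : r.Prime) (hpq : p ≠ q)
    (hqr : q ≠ r) : ∃ X : (G : Type) → [Group G] → Prop, Fis X ∧
      (∀ (G : Type) [Group G], X G → ∃ (A B : Subgroup G) (_ : A.Normal) (_ : B.Normal), A ≤ B ∧
        IsPGroup p A ∧ IsPGroup q (B.map (QuotientGroup.mk' A)) ∧ IsPGroup r (G ⧸ B)) ∧
      ∃ (G : Type) (_ : Group G) (_ : Finite G) (_ : Group.IsSolvable G) (M₁ M₂ : Subgroup G)
        (_ : M₁.Normal) (_ : M₂.Normal),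
        M₁ ⊓ M₂ = ⊥ ∧ X (G ⧸ M₁) ∧ X (G ⧸ M₂) ∧ ¬ X G ∧ M₁ ≤ center G ∧ M₂ ≤ center G ∧
        Nat.card M₁ = p ∧ Nat.card M₂ = p := by
  have := Fact.mk hp
  have := Fact.mk hq.one_lt
  have : NeZero q := ⟨hq.ne_zero⟩
  have : NeZero r := ⟨hr.ne_zero⟩
  have := Fintype.ofFinite (Hq q r)
  have c := (Nat.coprime_primes hp hq).2 hpq
  have hP : IsPGroup p (HG.pr : HG p (Hq q r) →* Hq q r).ker := fun g =>
    ⟨2, Subtype.ext (HG.pow_sq g.2)⟩
  have := hP.isNilpotent
  have : Group.IsSolvable (HG p (Hq q r)) :=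
    Group.isSolvable_of_ker_le_range HG.pr.ker.subtype HG.pr (range_subtype _).ge
  have hc : ∀ j, Nat.card (HG.ze j : Cy p →* HG p (Hq q r)).range = p := fun j => by
    rw [← Nat.card_congr (MonoidHom.ofInjective (HG.ze_injective j)).toEquiv]
    simp
  refine ⟨_, fis_rV (r := r) hp c hq, fun G _ h => rY_tower (inf_eq_top_iff.1 h.2.2).2, ?_⟩
  refine ⟨HG p (Hq q r), inferInstance, inferInstance, inferInstance, (HG.ze true).range,
    (HG.ze false).range, inferInstance, inferInstance, ?_, ?_, ?_, ?_, ?_, ?_, ?_, ?_⟩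
  · exact HG.ze_inf
  · exact ⟨inferInstance, inferInstance, rV_quot hp c true⟩
  · exact ⟨inferInstance, inferInstance, rV_quot hp c false⟩
  · exact fun h => rV_ne hp c hr.one_lt ((Nat.coprime_primes hq hr).2 hqr) h.2.2
  · exact HG.ze_le true
  · exact HG.ze_le false
  · exact hc true
  · exact hc false

end Pool.Agent.Work.MP_36bee3_al
end
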